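import Pool.Agent.H70.UN.Targets2
import Pool.Agent.H49.SDP.Main

/-!
# WHI: whitening of one psd block (helper45)
-/

set_option autoImplicit false

namespace Pool.Agent.H45.UN

open Matrix Finset H43.PS Pool.Agent.H70.UN

theorem whi_sqrt {ι : Type} [Fintype ι] [DecidableEq ι] {P : Matrix ι ι ℝ} (hP : P.PosDef) :
    ∃ Y Z : Matrix ι ι ℝ, Yᴴ = Y ∧ Zᴴ = Z ∧ Y * Z = 1 ∧ Z * Y = 1 ∧ Y * Y = P := by
  obtain ⟨Y, Z, hY, hZ, hYZ, hZY, h⟩ := Pool.Agent.H49.SDP.exists_change hP
  refine ⟨Y, Z, ?_, ?_, hYZ, hZY, ?_⟩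
  · rw [← hY, conjTranspose_eq_transpose_of_trivial, transpose_transpose, hY]
  · rw [← hZ, conjTranspose_eq_transpose_of_trivial, transpose_transpose, hZ]
  · calc Y * Y = Y * (Z * P * Z) * Y := by rw [h, Matrix.mul_one]
      _ = (Y * Z) * P * (Z * Y) := by simp only [Matrix.mul_assoc]
      _ = P := by rw [hYZ, hZY, Matrix.one_mul, Matrix.mul_one]

theorem whi_tr_avm {ι α : Type} [Fintype ι] [Fintype α] (P : α → Matrix ι ι ℝ)
    (B C : Matrix ι ι ℝ) :
    (B * avm P * C).trace = av (fun a => (B * P a * C).trace) := by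
  unfold avm av
  rw [Matrix.mul_smul, Matrix.smul_mul, Matrix.trace_smul, smul_eq_mul, Matrix.mul_sum,
    Matrix.sum_mul, Matrix.trace_sum]

theorem pf_WHI : T_WHI := by
  classical
  intro ι α β _ _ _ _ _ P S η hη hP hS
  have htr : ∀ x, 0 ≤ (S x).trace := fun x => (hS x).trace_nonneg
  have hs0 : 0 ≤ ∑ x, (S x).trace := Finset.sum_nonneg fun x _ => htr x
  set ε : ℝ := η / (1 + ∑ x, (S x).trace) with hε
  have hεpos : 0 < ε := div_pos hη (by linarith)
  have havm : (avm P).PosSemidef := by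
    unfold avm
    refine Matrix.PosSemidef.smul ?_ (by positivity)
    exact Matrix.posSemidef_sum _ fun a _ => hP a
  have hT0 : (avm P + ε • (1 : Matrix ι ι ℝ)).PosDef := by
    refine Matrix.PosDef.posSemidef_add havm ?_
    exact Matrix.PosDef.one.smul hεpos
  obtain ⟨Y, Z, hY, hZ, hYZ, hZY, hYY⟩ := whi_sqrt hT0
  have key : ∀ x, (Y * S x * Y).trace = av (fun a => (P a * S x).trace) + ε * (S x).trace := by
    intro x
    rw [Matrix.trace_mul_comm, ← Matrix.mul_assoc, hYY, Matrix.add_mul, Matrix.trace_add,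
      Matrix.smul_mul, Matrix.one_mul, Matrix.trace_smul, smul_eq_mul]
    congr 1
    have h2 := whi_tr_avm P 1 (S x)
    simpa only [Matrix.one_mul] using h2
  have hle : ∀ x, ε * (S x).trace ≤ η := by
    intro x
    have h1 : (S x).trace ≤ 1 + ∑ x, (S x).trace := by
      have := Finset.single_le_sum (f := fun x => (S x).trace) (fun x _ => htr x)
        (Finset.mem_univ x)
      linarith
    have h2 : ε * (1 + ∑ x, (S x).trace) = η := by
      rw [hε]
      exact div_mul_cancel₀ η (by linarith)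
    calc ε * (S x).trace ≤ ε * (1 + ∑ x, (S x).trace) := mul_le_mul_of_nonneg_left h1 hεpos.le
      _ = η := h2
  refine ⟨fun a => Z * P a * Z, fun x => Y * S x * Y, ?_, ?_, ?_, ?_, ?_, ?_⟩
  · intro a
    have := (hP a).mul_mul_conjTranspose_same Z
    rwa [hZ] at this
  · intro x
    have := (hS x).mul_mul_conjTranspose_same Y
    rwa [hY] at this
  · intro a x
    have h1 : Z * P a * Z * (Y * S x * Y) = Z * (P a * S x) * Y := by
      calc Z * P a * Z * (Y * S x * Y) = Z * P a * (Z * Y) * S x * Y := by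
            simp only [Matrix.mul_assoc]
        _ = Z * (P a * S x) * Y := by
            rw [hZY, Matrix.mul_one]
            simp only [Matrix.mul_assoc]
    change (Z * P a * Z * (Y * S x * Y)).trace = _
    rw [h1, Matrix.trace_mul_comm, ← Matrix.mul_assoc, hYZ, Matrix.one_mul]
  · rw [← whi_tr_avm]
    have h1 : Z * avm P * Z = 1 - ε • (Z * Z) := by
      have h2 : avm P = Y * Y - ε • (1 : Matrix ι ι ℝ) := by
        rw [hYY, add_sub_cancel_right]
      rw [h2, Matrix.mul_sub, Matrix.sub_mul]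
      congr 1
      · calc Z * (Y * Y) * Z = (Z * Y) * (Y * Z) := by simp only [Matrix.mul_assoc]
          _ = 1 := by rw [hYZ, hZY, Matrix.one_mul]
      · rw [Matrix.mul_smul, Matrix.mul_one, Matrix.smul_mul]
    rw [h1, Matrix.trace_sub, Matrix.trace_one, Matrix.trace_smul, smul_eq_mul]
    have h3 : 0 ≤ (Z * Z).trace := by
      have := (Matrix.posSemidef_self_mul_conjTranspose Z).trace_nonneg
      rwa [hZ] at this
    nlinarith [mul_nonneg hεpos.le h3]
  · intro x
    have h1 := key x
    have h2 := mul_nonneg hεpos.le (htr x)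
    change _ ≤ (Y * S x * Y).trace
    linarith
  · intro x
    have h1 := key x
    have h2 := hle x
    change (Y * S x * Y).trace ≤ _
    linarith

end Pool.Agent.H45.UN
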